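import Pool.Agent.Helper43.QN.QSpec

/-!
# The group half of `F(V ⋊ C) = M' ⋊ K` (thread TH-F, frozen statement `S00834`)

`M'` is identified (by `eX`, `eZ`) with pairs (invariant functional on `V`, 1-cocycle of `C` in `V`), `K` is
identified (by `gK`, `dK`) with pairs (automorphism of `V` commuting with `C`, element of `C`).
-/

set_option autoImplicit false

namespace QE61

open QN43

variable {V C M K : Type} [AddCommGroup V] [Group C] [DistribMulAction C V] [AddCommGroup M] [Group K]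
  [DistribMulAction K M]

/-- The data of `F_core`. -/
structure FD (eX : M →+ (V →+ ZMod 2)) (eZ : M →+ Z1 C V) (gK : K →* (AddMonoid.End V)ˣ) (dK : K →* C) :
    Prop where
  hX : ∀ (m : M) (c : C) (v : V), eX m (c • v) = eX m v
  hM1 : ∀ m : M, eX m = 0 → eZ m = 0 → m = 0
  hM2 : ∀ (l : V →+ ZMod 2) (f : Z1 C V), (∀ (c : C) (v : V), l (c • v) = l v) →
    ∃ m, eX m = l ∧ eZ m = f
  hK0 : ∀ (k : K) (c : C) (v : V), (gK k : AddMonoid.End V) (c • v) = c • (gK k : AddMonoid.End V) v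
  hK1 : ∀ k : K, gK k = 1 → dK k = 1 → k = 1
  hK2 : ∀ (g : (AddMonoid.End V)ˣ) (d : C), (∀ (c : C) (v : V),
    (g : AddMonoid.End V) (c • v) = c • (g : AddMonoid.End V) v) → ∃ k, gK k = g ∧ dK k = d
  aX : ∀ (k : K) (m : M) (v : V), eX (k • m) ((gK k : AddMonoid.End V) v) = eX m v
  aZ : ∀ (k : K) (m : M) (x : C),
    (eZ (k • m)).1 x = (gK k : AddMonoid.End V) (dK k • (eZ m).1 ((dK k)⁻¹ * x * dK k))

variable {eX : M →+ (V →+ ZMod 2)} {eZ : M →+ Z1 C V} {gK : K →* (AddMonoid.End V)ˣ} {dK : K →* C}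

/-- The automorphism given by `(m, k)`. -/
def af (eZ : M →+ Z1 C V) (gK : K →* (AddMonoid.End V)ˣ) (dK : K →* C) (x : SD M K) (p : SD V C) : SD V C :=
  ⟨(gK x.c : AddMonoid.End V) (dK x.c • p.v) + (eZ x.v).1 (dK x.c * p.c * (dK x.c)⁻¹),
    dK x.c * p.c * (dK x.c)⁻¹⟩

theorem af_mul_left (h : FD eX eZ gK dK) (x : SD M K) (p q : SD V C) :
    af eZ gK dK x (p * q) = af eZ gK dK x p * af eZ gK dK x q := by
  have e1 : dK x.c * (p.c * q.c) * (dK x.c)⁻¹ =
      (dK x.c * p.c * (dK x.c)⁻¹) * (dK x.c * q.c * (dK x.c)⁻¹) := by group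
  refine SD.ext ?_ ?_
  · show (gK x.c : AddMonoid.End V) (dK x.c • (p.v + p.c • q.v)) +
        (eZ x.v).1 (dK x.c * (p.c * q.c) * (dK x.c)⁻¹) =
      ((gK x.c : AddMonoid.End V) (dK x.c • p.v) + (eZ x.v).1 (dK x.c * p.c * (dK x.c)⁻¹)) +
        (dK x.c * p.c * (dK x.c)⁻¹) • ((gK x.c : AddMonoid.End V) (dK x.c • q.v) +
          (eZ x.v).1 (dK x.c * q.c * (dK x.c)⁻¹))
    have e2 : dK x.c • p.c • q.v = (dK x.c * p.c * (dK x.c)⁻¹) • dK x.c • q.v := by
      rw [smul_smul, smul_smul]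
      congr 1
      group
    rw [e1, Z1.mul, smul_add, map_add, smul_add, e2, h.hK0 x.c (dK x.c * p.c * (dK x.c)⁻¹)]
    abel
  · exact e1

theorem af_mul (h : FD eX eZ gK dK) (x y : SD M K) (p : SD V C) :
    af eZ gK dK (x * y) p = af eZ gK dK x (af eZ gK dK y p) := by
  have e1 : dK (x.c * y.c) * p.c * (dK (x.c * y.c))⁻¹ =
      dK x.c * (dK y.c * p.c * (dK y.c)⁻¹) * (dK x.c)⁻¹ := by
    rw [map_mul]; group
  refine SD.ext ?_ ?_
  · show (gK (x.c * y.c) : AddMonoid.End V) (dK (x.c * y.c) • p.v) +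
        (eZ (x.v + x.c • y.v)).1 (dK (x.c * y.c) * p.c * (dK (x.c * y.c))⁻¹) =
      (gK x.c : AddMonoid.End V) (dK x.c • ((gK y.c : AddMonoid.End V) (dK y.c • p.v) +
        (eZ y.v).1 (dK y.c * p.c * (dK y.c)⁻¹))) +
        (eZ x.v).1 (dK x.c * (dK y.c * p.c * (dK y.c)⁻¹) * (dK x.c)⁻¹)
    have e2 : (gK (x.c * y.c) : AddMonoid.End V) (dK (x.c * y.c) • p.v) =
        (gK x.c : AddMonoid.End V) (dK x.c • (gK y.c : AddMonoid.End V) (dK y.c • p.v)) := by
      rw [map_mul, Units.val_mul, map_mul, mul_smul, ← h.hK0]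
      rfl
    have e3 : (eZ (x.v + x.c • y.v)).1 (dK (x.c * y.c) * p.c * (dK (x.c * y.c))⁻¹) =
        (eZ x.v).1 (dK x.c * (dK y.c * p.c * (dK y.c)⁻¹) * (dK x.c)⁻¹) +
        (gK x.c : AddMonoid.End V) (dK x.c • (eZ y.v).1 (dK y.c * p.c * (dK y.c)⁻¹)) := by
      rw [map_add, e1]
      show (eZ x.v).1 _ + (eZ (x.c • y.v)).1 _ = _
      rw [h.aZ]
      have e4 : (dK x.c)⁻¹ * (dK x.c * (dK y.c * p.c * (dK y.c)⁻¹) * (dK x.c)⁻¹) * dK x.c =
          dK y.c * p.c * (dK y.c)⁻¹ := by group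
      rw [e4]
    rw [e2, e3, smul_add, map_add]
    abel
  · exact e1

theorem af_one (p : SD V C) : af eZ gK dK 1 p = p := by
  refine SD.ext ?_ ?_
  · show (gK 1 : AddMonoid.End V) (dK 1 • p.v) + (eZ 0).1 (dK 1 * p.c * (dK 1)⁻¹) = p.v
    rw [map_one, map_one, map_zero, one_smul]
    show p.v + 0 = p.v
    rw [add_zero]
  · show dK 1 * p.c * (dK 1)⁻¹ = p.c
    rw [map_one, one_mul, inv_one, mul_one]

/-- The same as an automorphism. -/
def aA (h : FD eX eZ gK dK) : SD M K →* MulAut (SD V C) where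
  toFun x :=
    { toFun := af eZ gK dK x
      invFun := af eZ gK dK x⁻¹
      left_inv := fun p => by rw [← af_mul h, inv_mul_cancel, af_one]
      right_inv := fun p => by rw [← af_mul h, mul_inv_cancel, af_one]
      map_mul' := af_mul_left h x }
  map_one' := by
    ext1 p
    exact af_one p
  map_mul' x y := by
    ext1 p
    exact af_mul h x y p

theorem aA_apply (h : FD eX eZ gK dK) (x : SD M K) (p : SD V C) : aA h x p = af eZ gK dK x p := rfl

/-- The character given by `m`. -/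
def chr (h : FD eX eZ gK dK) (m : M) : X (SD V C) where
  toFun p := Multiplicative.ofAdd (eX m p.v)
  map_one' := by
    show Multiplicative.ofAdd (eX m 0) = 1
    rw [map_zero]; rfl
  map_mul' p q := by
    show Multiplicative.ofAdd (eX m (p.v + p.c • q.v)) = _
    rw [map_add, h.hX]; rfl

theorem chr_apply (h : FD eX eZ gK dK) (m : M) (p : SD V C) :
    chr h m p = Multiplicative.ofAdd (eX m p.v) := rfl

theorem inv_cocycle (hC : ∀ f : C →* C2, f = 1) (l : V →+ ZMod 2)
    (hl : ∀ (c : C) (v : V), l (c • v) = l v) (f : Z1 C V) (x : C) : l (f.1 x) = 0 := by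
  have h1 := hC { toFun := fun x => Multiplicative.ofAdd (l (f.1 x))
                  map_one' := by
                    show Multiplicative.ofAdd (l (f.1 1)) = 1
                    rw [Z1.one, map_zero]; rfl
                  map_mul' := fun x y => by
                    show Multiplicative.ofAdd (l (f.1 (x * y))) = _
                    rw [Z1.mul, map_add, hl]; rfl }
  exact DFunLike.congr_fun h1 x

/-- The homomorphism `M ⋊ K → F (V ⋊ C)`. -/
def psi (h : FD eX eZ gK dK) (hC : ∀ f : C →* C2, f = 1) : SD M K →* F (SD V C) where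
  toFun x := ⟨chr h x.v, aA h x⟩
  map_one' := by
    refine SemidirectProduct.ext ?_ ?_
    · refine MonoidHom.ext fun p => ?_
      show Multiplicative.ofAdd (eX 0 p.v) = 1
      rw [map_zero]; rfl
    · exact map_one (aA h)
  map_mul' x y := by
    refine SemidirectProduct.ext ?_ ?_
    · refine MonoidHom.ext fun p => ?_
      show Multiplicative.ofAdd (eX (x.v + x.c • y.v) p.v) =
        Multiplicative.ofAdd (eX x.v p.v) * Multiplicative.ofAdd (eX y.v (((aA h x)⁻¹ p).v))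
      obtain ⟨q, rfl⟩ : ∃ q, p = aA h x q := ⟨(aA h x)⁻¹ p, (MulAut.apply_inv_self _ _ _).symm⟩
      rw [MulAut.inv_apply_self, ← ofAdd_add, map_add]
      congr 1
      show eX x.v _ + eX (x.c • y.v) (aA h x q).v = eX x.v _ + eX y.v q.v
      congr 1
      show eX (x.c • y.v) ((gK x.c : AddMonoid.End V) (dK x.c • q.v) +
        (eZ x.v).1 (dK x.c * q.c * (dK x.c)⁻¹)) = eX y.v q.v
      rw [map_add, h.aX, h.hX, inv_cocycle hC _ (h.hX _), add_zero]
    · exact map_mul (aA h) x y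

theorem psi_inj (h : FD eX eZ gK dK) (hC : ∀ f : C →* C2, f = 1) (hZ : Subgroup.center C = ⊥) :
    Function.Injective (psi h hC) := by
  rw [injective_iff_map_eq_one]
  intro x hx
  have h1 : chr h x.v = 1 := congrArg SemidirectProduct.left hx
  have h2 : aA h x = 1 := congrArg SemidirectProduct.right hx
  have h3 : ∀ p, af eZ gK dK x p = p := fun p => DFunLike.congr_fun h2 p
  have h4 : ∀ c : C, dK x.c * c * (dK x.c)⁻¹ = c := fun c => congrArg SD.c (h3 ⟨0, c⟩)
  have hd : dK x.c = 1 := by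
    have : dK x.c ∈ Subgroup.center C := by
      rw [Subgroup.mem_center_iff]
      intro c
      have := h4 c
      rw [mul_inv_eq_iff_eq_mul] at this
      exact this.symm
    rwa [hZ, Subgroup.mem_bot] at this
  have h5 : ∀ v : V, (gK x.c : AddMonoid.End V) v = v := by
    intro v
    have h6 : (gK x.c : AddMonoid.End V) (dK x.c • v) + (eZ x.v).1 (dK x.c * 1 * (dK x.c)⁻¹) = v :=
      congrArg SD.v (h3 ⟨v, 1⟩)
    rw [hd, one_smul, one_mul, one_mul, inv_one, Z1.one, add_zero] at h6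
    exact h6
  have hg : gK x.c = 1 := by
    refine Units.ext ?_
    refine AddMonoidHom.ext fun v => ?_
    exact h5 v
  have hk : x.c = 1 := h.hK1 _ hg hd
  have hz : eZ x.v = 0 := by
    refine Subtype.ext ?_
    funext c
    have h6 : (gK x.c : AddMonoid.End V) (dK x.c • (0 : V)) + (eZ x.v).1 (dK x.c * c * (dK x.c)⁻¹) = 0 :=
      congrArg SD.v (h3 ⟨0, c⟩)
    rw [hd, smul_zero, map_zero, zero_add, one_mul, inv_one, mul_one] at h6
    exact h6
  have hl : eX x.v = 0 := by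
    refine AddMonoidHom.ext fun v => ?_
    have h6 : Multiplicative.ofAdd (eX x.v v) = 1 := DFunLike.congr_fun h1 (⟨v, 1⟩ : SD V C)
    exact ofAdd_eq_one.1 h6
  exact SD.ext (h.hM1 _ hl hz) hk

section surj

variable (hV : ∀ (t : MulAut (SD V C)) (v : V), (t (SD.inl v)).c = 1)

include hV

theorem t_inl (t : MulAut (SD V C)) (v : V) : t (SD.inl v) = SD.inl (t (SD.inl v)).v :=
  SD.ext rfl (hV t v)

/-- The automorphism of `C` induced by `t`. -/
def bC (t : MulAut (SD V C)) : C ≃* C where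
  toFun c := (t (SD.inr c)).c
  invFun c := (t⁻¹ (SD.inr c)).c
  left_inv c := by
    have h1 : t⁻¹ (t (SD.inr c)) = SD.inr c := MulAut.inv_apply_self _ _ _
    rw [SD.eq_mul (t (SD.inr c)), map_mul] at h1
    have h2 := congrArg SD.c h1
    rw [SD.mul_c, hV, one_mul] at h2
    exact h2
  right_inv c := by
    have h1 : t (t⁻¹ (SD.inr c)) = SD.inr c := MulAut.apply_inv_self _ _ _
    rw [SD.eq_mul (t⁻¹ (SD.inr c)), map_mul] at h1
    have h2 := congrArg SD.c h1
    rw [SD.mul_c, hV, one_mul] at h2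
    exact h2
  map_mul' c d := by
    rw [map_mul, map_mul, SD.mul_c]

/-- The automorphism of `V` induced by `t`. -/
def gV (t : MulAut (SD V C)) : V ≃+ V where
  toFun v := (t (SD.inl v)).v
  invFun v := (t⁻¹ (SD.inl v)).v
  left_inv v := by
    show (t⁻¹ (SD.inl (t (SD.inl v)).v)).v = v
    rw [← t_inl hV, MulAut.inv_apply_self]
    rfl
  right_inv v := by
    show (t (SD.inl (t⁻¹ (SD.inl v)).v)).v = v
    rw [← t_inl hV, MulAut.apply_inv_self]
    rfl
  map_add' v w := by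
    rw [← SD.inl_mul_inl, map_mul, SD.mul_v, hV, one_smul]

theorem gV_smul (t : MulAut (SD V C)) (c : C) (v : V) : gV hV t (c • v) = bC hV t c • gV hV t v := by
  show (t (SD.inl (c • v))).v = (t (SD.inr c)).c • (t (SD.inl v)).v
  have h1 : (SD.inl (c • v) : SD V C) * SD.inr c = SD.inr c * SD.inl v := by
    rw [← SD.conj_inl, inv_mul_cancel_right]
  have h2 := congrArg SD.v (congrArg t h1)
  rw [map_mul, map_mul, SD.mul_v, SD.mul_v, hV, one_smul] at h2
  rw [add_comm] at h2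
  exact add_left_cancel h2

end surj

theorem psi_surj (h : FD eX eZ gK dK) (hC : ∀ f : C →* C2, f = 1)
    (hV : ∀ (t : MulAut (SD V C)) (v : V), (t (SD.inl v)).c = 1)
    (hI : ∀ (g : V ≃+ V) (b : C ≃* C), (∀ (c : C) (v : V), g (c • v) = b c • g v) →
      ∃ d : C, ∀ c, b c = d * c * d⁻¹) : Function.Surjective (psi h hC) := by
  rintro ⟨χ, t⟩
  obtain ⟨d, hd⟩ := hI (gV hV t) (bC hV t) (gV_smul hV t)
  -- the functional
  let l : V →+ ZMod 2 :=
    { toFun := fun v => Multiplicative.toAdd (χ (SD.inl v))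
      map_zero' := by
        have : (SD.inl 0 : SD V C) = 1 := rfl
        rw [this, map_one]; rfl
      map_add' := fun v w => by
        rw [← SD.inl_mul_inl, map_mul]; rfl }
  have hl : ∀ (c : C) (v : V), l (c • v) = l v := by
    intro c v
    have h1 : χ (SD.inl (c • v)) = χ (SD.inl v) := by
      rw [← SD.conj_inl, map_mul, map_mul, map_inv, mul_comm (χ (SD.inr c)), mul_inv_cancel_right]
    exact congrArg Multiplicative.toAdd h1
  have hχ : ∀ p : SD V C, χ p = Multiplicative.ofAdd (l p.v) := by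
    intro p
    have h1 : χ (SD.inr p.c) = 1 := DFunLike.congr_fun (hC (χ.comp SD.inr)) p.c
    conv_lhs => rw [SD.eq_mul p, map_mul, h1, mul_one]
    rfl
  -- the cocycle
  have hb : ∀ x : C, (t (SD.inr (d⁻¹ * x * d))).c = x := by
    intro x
    have h1 := hd (d⁻¹ * x * d)
    have h2 : d * (d⁻¹ * x * d) * d⁻¹ = x := by group
    rw [h2] at h1
    exact h1
  let f : Z1 C V := ⟨fun x => (t (SD.inr (d⁻¹ * x * d))).v, by
    intro x y
    have e1 : d⁻¹ * (x * y) * d = (d⁻¹ * x * d) * (d⁻¹ * y * d) := by group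
    show (t (SD.inr (d⁻¹ * (x * y) * d))).v = (t (SD.inr (d⁻¹ * x * d))).v +
      x • (t (SD.inr (d⁻¹ * y * d))).v
    rw [e1, map_mul, map_mul, SD.mul_v, hb]⟩
  obtain ⟨m, hm1, hm2⟩ := h.hM2 l f hl
  -- the commuting automorphism
  let g1 : V ≃+ V := (DistribMulAction.toAddEquiv V d⁻¹).trans (gV hV t)
  have hg1 : ∀ v, g1 v = gV hV t (d⁻¹ • v) := fun _ => rfl
  let g : (AddMonoid.End V)ˣ :=
    { val := g1.toAddMonoidHom
      inv := g1.symm.toAddMonoidHom
      val_inv := by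
        refine AddMonoidHom.ext fun v => ?_
        exact g1.apply_symm_apply v
      inv_val := by
        refine AddMonoidHom.ext fun v => ?_
        exact g1.symm_apply_apply v }
  have hg : ∀ v, (g : AddMonoid.End V) v = gV hV t (d⁻¹ • v) := fun _ => rfl
  obtain ⟨k, hk1, hk2⟩ := h.hK2 g d (by
    intro c v
    rw [hg, hg]
    have e1 : d⁻¹ • c • v = (d⁻¹ * c * d) • d⁻¹ • v := by
      rw [smul_smul, smul_smul]; congr 1; group
    rw [e1, gV_smul, hd]
    congr 1
    group)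
  refine ⟨⟨m, k⟩, SemidirectProduct.ext ?_ ?_⟩
  · refine MonoidHom.ext fun p => ?_
    rw [hχ p]
    show Multiplicative.ofAdd (eX m p.v) = _
    rw [hm1]
  · refine MulEquiv.ext fun p => ?_
    show af eZ gK dK ⟨m, k⟩ p = t p
    have e2 : t p = t (SD.inl p.v) * t (SD.inr p.c) := by
      rw [← map_mul, ← SD.eq_mul]
    have e3 : d⁻¹ * (d * p.c * d⁻¹) * d = p.c := by group
    rw [e2]
    refine SD.ext ?_ ?_
    · show (gK k : AddMonoid.End V) (dK k • p.v) + (eZ m).1 (dK k * p.c * (dK k)⁻¹) =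
        (t (SD.inl p.v)).v + (t (SD.inl p.v)).c • (t (SD.inr p.c)).v
      rw [hk1, hk2, hm2, hg, smul_smul, inv_mul_cancel, one_smul, hV, one_smul]
      show (t (SD.inl p.v)).v + (t (SD.inr (d⁻¹ * (d * p.c * d⁻¹) * d))).v = _
      rw [e3]
    · show dK k * p.c * (dK k)⁻¹ = (t (SD.inl p.v)).c * (t (SD.inr p.c)).c
      rw [hk2, hV, one_mul]
      exact (hd p.c).symm

/-- **The group half of `F_even`.** -/
theorem F_core (h : FD eX eZ gK dK) (hC : ∀ f : C →* C2, f = 1) (hZ : Subgroup.center C = ⊥)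
    (hV : ∀ (t : MulAut (SD V C)) (v : V), (t (SD.inl v)).c = 1)
    (hI : ∀ (g : V ≃+ V) (b : C ≃* C), (∀ (c : C) (v : V), g (c • v) = b c • g v) →
      ∃ d : C, ∀ c, b c = d * c * d⁻¹) : Nonempty (F (SD V C) ≃* SD M K) :=
  ⟨(MulEquiv.ofBijective (psi h hC) ⟨psi_inj h hC hZ, psi_surj h hC hV hI⟩).symm⟩

end QE61
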